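import Mathlib
import Pool.Agent.R341.Rou

set_option autoImplicit false

/-!
# The partial sums of one power series are not flat from below

Let `|a n| ≤ 1` for all `n`, `a 0 ≠ 0` and `P_N = ∑_{n<N} a n z^n`.  Then the minimum of `|P_N|` on
the unit circle does not tend to infinity.  Otherwise `|P_N| > 1 ≥ |a N z^N|` on the circle for all
large `N`, so that by Rouché's theorem all the `P_N` have the same number `k` of zeros in the open
unit disc; these zeros stay away from `0`, so that the Mahler measures of the `P_N` are bounded, by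
Jensen's formula; but the Mahler measure is at least the minimum of `|P_N|` on the circle.
-/

namespace Pool.Agent.Helper433_LF

open Polynomial Complex Real Filter
open Pool.Agent.R341.Rou (nz rouche)

/-- the partial sums -/
noncomputable def PS (a : ℕ → ℂ) (N : ℕ) : ℂ[X] := ∑ n ∈ Finset.range N, C (a n) * X ^ n

theorem PS_eval (a : ℕ → ℂ) (N : ℕ) (z : ℂ) : (PS a N).eval z = ∑ n ∈ Finset.range N, a n * z ^ n := by
  simp [PS, eval_finsetSum]

theorem PS_succ (a : ℕ → ℂ) (N : ℕ) (z : ℂ) :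
    (PS a (N + 1)).eval z = (PS a N).eval z + a N * z ^ N := by
  rw [PS_eval, PS_eval, Finset.sum_range_succ]

/-- No zeros near `0`. -/
theorem PS_ne_zero {a : ℕ → ℂ} (ha : ∀ n, ‖a n‖ ≤ 1) {N : ℕ} {z : ℂ} {δ : ℝ} (hδ : 0 < δ)
    (hδ1 : δ ≤ 1) (h0 : δ ≤ ‖a 0‖) (hz : ‖z‖ < δ / 2) : (PS a (N + 1)).eval z ≠ 0 := by
  have h1 : (PS a (N + 1)).eval z = a 0 + ∑ n ∈ Finset.range N, a (n + 1) * z ^ (n + 1) := by
    rw [PS_eval, Finset.sum_range_succ']
    simp [add_comm]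
  have h2 : ‖∑ n ∈ Finset.range N, a (n + 1) * z ^ (n + 1)‖ < δ := by
    calc ‖∑ n ∈ Finset.range N, a (n + 1) * z ^ (n + 1)‖
        ≤ ∑ n ∈ Finset.range N, ‖a (n + 1) * z ^ (n + 1)‖ := norm_sum_le _ _
      _ ≤ ∑ n ∈ Finset.range N, ‖z‖ * (1 / 2 : ℝ) ^ n := by
          apply Finset.sum_le_sum
          intro n _
          rw [norm_mul, norm_pow, pow_succ]
          have e1 : ‖z‖ ^ n ≤ (1 / 2 : ℝ) ^ n := pow_le_pow_left₀ (norm_nonneg _) (by linarith) n
          have e2 := ha (n + 1)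
          have e3 : (0 : ℝ) ≤ ‖z‖ := norm_nonneg _
          have e4 : (0 : ℝ) ≤ ‖z‖ ^ n := by positivity
          calc ‖a (n + 1)‖ * (‖z‖ ^ n * ‖z‖) ≤ 1 * ((1 / 2 : ℝ) ^ n * ‖z‖) := by
                gcongr
            _ = ‖z‖ * (1 / 2 : ℝ) ^ n := by ring
      _ = ‖z‖ * ∑ n ∈ Finset.range N, (1 / 2 : ℝ) ^ n := by rw [Finset.mul_sum]
      _ ≤ ‖z‖ * 2 := by
          gcongr
          have := sum_geometric_two_le (n := N)
          simpa using this
      _ < δ := by linarith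
  intro h3
  rw [h1] at h3
  have h4 : a 0 = -(∑ n ∈ Finset.range N, a (n + 1) * z ^ (n + 1)) := eq_neg_of_add_eq_zero_left h3
  have h5 : ‖a 0‖ < δ := by rw [h4, norm_neg]; exact h2
  linarith

/-- The product of the `max 1 |w|` over the zeros. -/
theorem prod_max_le {δ : ℝ} (hδ : 0 < δ) (hδ1 : δ ≤ 1) (s : Multiset ℂ) (hs : ∀ w ∈ s, δ ≤ ‖w‖) :
    (s.map (fun w => max 1 ‖w‖)).prod ≤ (s.map (fun w => ‖w‖)).prod *
      (1 / δ) ^ ((by classical exact (s.filter (fun z => ‖z‖ < 1)).card : ℕ)) := by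
  classical
  induction s using Multiset.induction_on with
  | empty => simp
  | cons w s ih =>
    have ih' := ih (fun w hw => hs w (Multiset.mem_cons_of_mem hw))
    have hw := hs w (Multiset.mem_cons_self w s)
    have hp : 0 ≤ (s.map (fun w => max 1 ‖w‖)).prod := by
      apply Multiset.prod_nonneg
      intro x hx
      obtain ⟨y, _, rfl⟩ := Multiset.mem_map.1 hx
      positivity
    rw [Multiset.map_cons, Multiset.prod_cons, Multiset.map_cons, Multiset.prod_cons]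
    by_cases h : ‖w‖ < 1
    · rw [Multiset.filter_cons_of_pos (p := fun z : ℂ => ‖z‖ < 1) s h, Multiset.card_cons, pow_succ,
        max_eq_left h.le]
      have h1 : 1 ≤ ‖w‖ * (1 / δ) := by
        rw [mul_one_div, one_le_div hδ]; exact hw
      calc 1 * (s.map (fun w => max 1 ‖w‖)).prod
          ≤ (‖w‖ * (1 / δ)) * ((s.map (fun w => ‖w‖)).prod *
            (1 / δ) ^ ((s.filter (fun z => ‖z‖ < 1)).card)) := by
            apply mul_le_mul h1 ih' hp
            positivity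
        _ = _ := by ring
    · rw [Multiset.filter_cons_of_neg (p := fun z : ℂ => ‖z‖ < 1) s h,
        max_eq_right (not_lt.1 h), mul_assoc]
      gcongr

theorem mahler_le {δ : ℝ} (hδ : 0 < δ) (hδ1 : δ ≤ 1) {p : ℂ[X]}
    (hs : ∀ w : ℂ, ‖w‖ < δ → p.eval w ≠ 0) :
    p.mahlerMeasure ≤ ‖p.eval 0‖ * (1 / δ) ^ nz 1 p := by
  classical
  have hp : p ≠ 0 := by
    rintro rfl
    exact hs 0 (by simpa using hδ) (by simp)
  have h1 : ∀ w ∈ p.roots, δ ≤ ‖w‖ := by
    intro w hw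
    by_contra h
    exact hs w (not_le.1 h) ((mem_roots hp).1 hw)
  have h2 := prod_max_le hδ hδ1 p.roots h1
  rw [mahlerMeasure_eq_leadingCoeff_mul_prod_roots]
  have h3 : ‖p.eval 0‖ = ‖p.leadingCoeff‖ * (p.roots.map (fun w => ‖w‖)).prod := by
    conv_lhs => rw [(IsAlgClosed.splits p).eq_prod_roots]
    rw [eval_mul, eval_C, norm_mul]
    congr 1
    rw [eval_multiset_prod, Multiset.map_map]
    generalize p.roots = s
    induction s using Multiset.induction_on with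
    | empty => simp
    | cons w s ih =>
      rw [Multiset.map_cons, Multiset.prod_cons, norm_mul, ih, Multiset.map_cons, Multiset.prod_cons]
      simp
  rw [h3, mul_assoc]
  apply mul_le_mul_of_nonneg_left _ (norm_nonneg _)
  exact h2

theorem le_mahler {p : ℂ[X]} {m : ℝ} (hm : 0 < m) (h : ∀ z : ℂ, ‖z‖ = 1 → m ≤ ‖p.eval z‖) :
    m ≤ p.mahlerMeasure := by
  have hp : p ≠ 0 := by
    rintro rfl
    have := h 1 (by simp)
    simp at this
    linarith
  have h1 : Real.log m ≤ p.logMahlerMeasure := by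
    rw [logMahlerMeasure_def, ← Real.circleAverage_const (Real.log m) 0 1]
    apply Real.circleAverage_mono (circleIntegrable_const _ _ _) 
    · exact (analyticOnNhd_id.aeval_polynomial p).meromorphicOn.circleIntegrable_log_norm
    · intro z hz
      apply Real.log_le_log hm
      apply h
      simpa using hz
  rw [logMahlerMeasure_eq_log_MahlerMeasure] at h1
  exact (Real.log_le_log_iff hm (mahlerMeasure_pos_of_ne_zero hp)).1 h1

/-- The minimum of `|P_N|` on the unit circle does not tend to infinity. -/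
theorem main {a : ℕ → ℂ} (ha : ∀ n, ‖a n‖ ≤ 1) (h0 : a 0 ≠ 0) :
    ∃ C : ℝ, ∀ N₀ : ℕ, ∃ N ≥ N₀, ∃ z : ℂ, ‖z‖ = 1 ∧ ‖(PS a N).eval z‖ ≤ C := by
  by_cases hA : ∀ N₀ : ℕ, ∃ N ≥ N₀, ∃ z : ℂ, ‖z‖ = 1 ∧ ‖(PS a N).eval z‖ ≤ 1
  · exact ⟨1, hA⟩
  push Not at hA
  obtain ⟨N₀, hN⟩ := hA
  have hk : ∀ j : ℕ, nz 1 (PS a (N₀ + 1 + j)) = nz 1 (PS a (N₀ + 1)) := by
    intro j
    induction j with
    | zero => rfl
    | succ j ih =>
      rw [← ih]
      symm
      apply rouche one_pos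
      intro z hz
      have h1 := hN (N₀ + 1 + j) (by omega) z hz
      rw [← add_assoc (N₀ + 1) j 1, PS_succ, sub_add_cancel_left, norm_neg, norm_mul, norm_pow, hz,
        one_pow, mul_one]
      exact (ha _).trans_lt h1
  obtain ⟨k, hkk⟩ : ∃ k, k = nz 1 (PS a (N₀ + 1)) := ⟨_, rfl⟩
  obtain ⟨δ, hδ⟩ : ∃ δ, δ = ‖a 0‖ / 2 := ⟨_, rfl⟩
  have ha0 : 0 < ‖a 0‖ := norm_pos_iff.2 h0
  have hδ0 : 0 < δ := by rw [hδ]; positivity
  have hδ1 : δ ≤ 1 := by rw [hδ]; linarith [ha 0]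
  refine ⟨‖a 0‖ * (1 / δ) ^ k + 1, fun N₁ => ⟨N₀ + 1 + N₁, by omega, ?_⟩⟩
  by_contra hcon
  push Not at hcon
  have h1 : ‖a 0‖ * (1 / δ) ^ k + 1 ≤ (PS a (N₀ + 1 + N₁)).mahlerMeasure := by
    apply le_mahler (by positivity)
    intro z hz
    exact (hcon z hz).le
  have h2 : (PS a (N₀ + 1 + N₁)).mahlerMeasure ≤ ‖a 0‖ * (1 / δ) ^ k := by
    have h3 := mahler_le hδ0 hδ1 (p := PS a (N₀ + 1 + N₁)) (fun w hw => by
      rw [show N₀ + 1 + N₁ = (N₀ + N₁) + 1 by omega]
      exact PS_ne_zero ha ha0 (ha 0) le_rfl (by rw [← hδ]; exact hw))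
    rw [hk N₁, ← hkk] at h3
    have h4 : (PS a (N₀ + 1 + N₁)).eval 0 = a 0 := by
      rw [show N₀ + 1 + N₁ = (N₀ + N₁) + 1 by omega, PS_eval, Finset.sum_range_succ']
      simp
    rwa [h4] at h3
  linarith

end Pool.Agent.Helper433_LF
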